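import Pool.Agent.H34.FS.Targets
import Pool.Agent.H34.HFQ.MN1

/-!
Row MNL of the board hfs_modules (`MP_63b6b1_nt`): almost all robust pairs have a small zero.
-/

set_option autoImplicit false

open Finset Pool.Agent.H32.RQ Pool.Agent.H34.FQ Pool.Agent.H34.FS

namespace Pool.Agent.H34.HFS

namespace Mnl

/-- the size is small against `A` -/
theorem ble (k B₀ K₀ A B : ℕ) (hk : 3 ≤ k) (hB : 1 ≤ B)
    (hA : B₀ ^ 3 * (2 ^ k * K₀) ≤ A) (h : (B : ℝ) ^ k ≤ 2 ^ k * (K₀ * (A : ℝ) ^ 2)) :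
    B₀ * B ≤ A := by
  have hBr : (1 : ℝ) ≤ B := by exact_mod_cast hB
  have h1 : (B : ℝ) ^ 3 ≤ 2 ^ k * (K₀ * (A : ℝ) ^ 2) := (pow_le_pow_right₀ hBr hk).trans h
  have h2 : ((B₀ : ℝ) * B) ^ 3 ≤ (A : ℝ) ^ 3 := by
    have hA' : (B₀ : ℝ) ^ 3 * (2 ^ k * K₀) ≤ A := by exact_mod_cast hA
    calc ((B₀ : ℝ) * B) ^ 3 = (B₀ : ℝ) ^ 3 * (B : ℝ) ^ 3 := mul_pow _ _ _
      _ ≤ (B₀ : ℝ) ^ 3 * (2 ^ k * (K₀ * (A : ℝ) ^ 2)) :=
          mul_le_mul_of_nonneg_left h1 (by positivity)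
      _ = (B₀ : ℝ) ^ 3 * (2 ^ k * K₀) * (A : ℝ) ^ 2 := by ring
      _ ≤ A * (A : ℝ) ^ 2 := mul_le_mul_of_nonneg_right hA' (by positivity)
      _ = (A : ℝ) ^ 3 := by ring
  have h3 : (B₀ : ℝ) * B ≤ A := le_of_pow_le_pow_left₀ (by norm_num) (by positivity) h2
  exact_mod_cast h3

/-- the size is large -/
theorem blg (k B₀ K₀ A B : ℕ) (hk : 1 ≤ k) (hK : 1 ≤ K₀) (hA1 : 1 ≤ A) (hA : B₀ ^ k ≤ A)
    (h : (K₀ : ℝ) * (A : ℝ) ^ 2 ≤ (B : ℝ) ^ k) : B₀ ≤ B := by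
  have hKr : (1 : ℝ) ≤ K₀ := by exact_mod_cast hK
  have hAr : (1 : ℝ) ≤ A := by exact_mod_cast hA1
  have h1 : (B₀ : ℝ) ^ k ≤ (B : ℝ) ^ k := by
    calc (B₀ : ℝ) ^ k ≤ A := by exact_mod_cast hA
      _ ≤ (A : ℝ) ^ 2 := by nlinarith
      _ ≤ K₀ * (A : ℝ) ^ 2 := le_mul_of_one_le_left (by positivity) hKr
      _ ≤ _ := h
  have h2 : (B₀ : ℝ) ≤ B := le_of_pow_le_pow_left₀ (by omega) (by positivity) h1
  exact_mod_cast h2

/-- the unstructured frequencies are negligible -/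
theorem uns (r c K₀ : ℕ) (κ : ℝ) (hr : 5 ≤ r) (hκ : 0 < κ) : ∃ A₀ : ℕ, ∀ A B : ℕ, A₀ ≤ A →
    1 ≤ A → 1 ≤ B → (A : ℝ) ^ 2 ≤ (B : ℝ) ^ (r - 2) →
    (B : ℝ) ^ (r - 2) ≤ 2 ^ (r - 2) * (K₀ * (A : ℝ) ^ 2) →
    (B : ℝ) ^ 4 * (6 * c * (B : ℝ) ^ 2 / A + 1) ^ (2 * r - 4) ≤ κ * (A : ℝ) ^ 5 := by
  rcases Nat.lt_or_ge r 6 with h6 | h6
  · obtain rfl : r = 5 := by omega
    obtain ⟨A₀, hA₀⟩ := exists_nat_ge ((((6 * (c : ℝ) + 1) ^ 6) ^ 3 * (8 * K₀) ^ 16) / κ ^ 3)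
    refine ⟨A₀, fun A B hA hA1 hB1 h1 h2 => ?_⟩
    have e1 : 5 - 2 = 3 := rfl
    have e2 : 2 * 5 - 4 = 6 := rfl
    rw [e1] at h1 h2
    rw [e2]
    have hAr : (1 : ℝ) ≤ A := by exact_mod_cast hA1
    have hA0 : (0 : ℝ) < A := by linarith
    have hBr : (1 : ℝ) ≤ B := by exact_mod_cast hB1
    have h3 : (A : ℝ) ≤ (B : ℝ) ^ 2 := by
      have h4 : (A : ℝ) ^ 2 ≤ ((B : ℝ) ^ 2) ^ 2 := by
        calc (A : ℝ) ^ 2 ≤ (B : ℝ) ^ 3 := h1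
          _ ≤ (B : ℝ) ^ 4 := pow_le_pow_right₀ hBr (by norm_num)
          _ = _ := by ring
      exact le_of_pow_le_pow_left₀ (by norm_num) (by positivity) h4
    have h4 : 6 * c * (B : ℝ) ^ 2 / A + 1 ≤ (6 * c + 1) * ((B : ℝ) ^ 2 / A) := by
      have : 1 ≤ (B : ℝ) ^ 2 / A := by rwa [one_le_div hA0]
      calc 6 * c * (B : ℝ) ^ 2 / A + 1 ≤ 6 * c * (B : ℝ) ^ 2 / A + (B : ℝ) ^ 2 / A := by linarith
        _ = _ := by ring
    have h5 : (B : ℝ) ^ 4 * (6 * c * (B : ℝ) ^ 2 / A + 1) ^ 6 ≤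
        (6 * c + 1) ^ 6 * (B : ℝ) ^ 16 / (A : ℝ) ^ 6 := by
      calc (B : ℝ) ^ 4 * (6 * c * (B : ℝ) ^ 2 / A + 1) ^ 6 ≤
            (B : ℝ) ^ 4 * ((6 * c + 1) * ((B : ℝ) ^ 2 / A)) ^ 6 :=
          mul_le_mul_of_nonneg_left (pow_le_pow_left₀ (by positivity) h4 6) (by positivity)
        _ = _ := by
          field_simp
    refine h5.trans ?_
    rw [div_le_iff₀ (by positivity)]
    have h6' : (((6 * (c : ℝ) + 1) ^ 6) ^ 3 * (8 * K₀) ^ 16) ≤ κ ^ 3 * A := by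
      have h7 : (((6 * (c : ℝ) + 1) ^ 6) ^ 3 * (8 * K₀) ^ 16) / κ ^ 3 ≤ A :=
        hA₀.trans (by exact_mod_cast hA)
      rw [div_le_iff₀ (by positivity)] at h7
      linarith
    have h7 : ((6 * (c : ℝ) + 1) ^ 6 * (B : ℝ) ^ 16) ^ 3 ≤ (κ * (A : ℝ) ^ 5 * (A : ℝ) ^ 6) ^ 3 := by
      calc ((6 * (c : ℝ) + 1) ^ 6 * (B : ℝ) ^ 16) ^ 3 =
            ((6 * (c : ℝ) + 1) ^ 6) ^ 3 * ((B : ℝ) ^ 3) ^ 16 := by ring
        _ ≤ ((6 * (c : ℝ) + 1) ^ 6) ^ 3 * (2 ^ 3 * (K₀ * (A : ℝ) ^ 2)) ^ 16 :=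
            mul_le_mul_of_nonneg_left (pow_le_pow_left₀ (by positivity) h2 16) (by positivity)
        _ = (((6 * (c : ℝ) + 1) ^ 6) ^ 3 * (8 * K₀) ^ 16) * (A : ℝ) ^ 32 := by ring
        _ ≤ κ ^ 3 * A * (A : ℝ) ^ 32 := mul_le_mul_of_nonneg_right h6' (by positivity)
        _ = _ := by ring
    exact le_of_pow_le_pow_left₀ (by norm_num) (by positivity) h7
  · obtain ⟨M₁, hM₁⟩ : ∃ M₁ : ℝ, M₁ = 2 ^ (r - 2) * K₀ + 1 := ⟨_, rfl⟩
    obtain ⟨A₀, hA₀⟩ := exists_nat_ge ((M₁ ^ 2 * (6 * c * M₁ + 1) ^ (2 * r - 4)) / κ)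
    refine ⟨A₀, fun A B hA hA1 hB1 h1 h2 => ?_⟩
    have hM1 : 1 ≤ M₁ := by
      rw [hM₁]
      have : (0 : ℝ) ≤ 2 ^ (r - 2) * K₀ := by positivity
      linarith
    have hAr : (1 : ℝ) ≤ A := by exact_mod_cast hA1
    have hA0 : (0 : ℝ) < A := by linarith
    have hBr : (1 : ℝ) ≤ B := by exact_mod_cast hB1
    have h3 : ((B : ℝ) ^ 2) ^ 2 ≤ (M₁ * A) ^ 2 := by
      calc ((B : ℝ) ^ 2) ^ 2 = (B : ℝ) ^ 4 := by ring
        _ ≤ (B : ℝ) ^ (r - 2) := pow_le_pow_right₀ hBr (by omega)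
        _ ≤ 2 ^ (r - 2) * (K₀ * (A : ℝ) ^ 2) := h2
        _ = (2 ^ (r - 2) * K₀) * (A : ℝ) ^ 2 := by ring
        _ ≤ M₁ * (A : ℝ) ^ 2 := mul_le_mul_of_nonneg_right (by rw [hM₁]; linarith) (by positivity)
        _ ≤ M₁ * M₁ * (A : ℝ) ^ 2 :=
            mul_le_mul_of_nonneg_right (le_mul_of_one_le_left (by linarith) hM1) (by positivity)
        _ = _ := by ring
    have h4 : (B : ℝ) ^ 2 ≤ M₁ * A := le_of_pow_le_pow_left₀ (by norm_num) (by positivity) h3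
    have h5 : 6 * c * (B : ℝ) ^ 2 / A + 1 ≤ 6 * c * M₁ + 1 := by
      have : 6 * c * (B : ℝ) ^ 2 / A ≤ 6 * c * M₁ := by
        rw [div_le_iff₀ hA0]
        calc 6 * c * (B : ℝ) ^ 2 ≤ 6 * c * (M₁ * A) := mul_le_mul_of_nonneg_left h4 (by positivity)
          _ = _ := by ring
      linarith
    have h7 : M₁ ^ 2 * (6 * c * M₁ + 1) ^ (2 * r - 4) ≤ A * κ := by
      have h8 : (M₁ ^ 2 * (6 * c * M₁ + 1) ^ (2 * r - 4)) / κ ≤ A :=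
        hA₀.trans (by exact_mod_cast hA)
      rwa [div_le_iff₀ hκ] at h8
    calc (B : ℝ) ^ 4 * (6 * c * (B : ℝ) ^ 2 / A + 1) ^ (2 * r - 4) ≤
          (M₁ * A) ^ 2 * (6 * c * M₁ + 1) ^ (2 * r - 4) := by
          refine mul_le_mul ?_ (pow_le_pow_left₀ (by positivity) h5 _) (by positivity)
            (by positivity)
          calc (B : ℝ) ^ 4 = ((B : ℝ) ^ 2) ^ 2 := by ring
            _ ≤ _ := h3
      _ = M₁ ^ 2 * (6 * c * M₁ + 1) ^ (2 * r - 4) * (A : ℝ) ^ 2 := by ring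
      _ ≤ A * κ * (A : ℝ) ^ 2 := mul_le_mul_of_nonneg_right h7 (by positivity)
      _ = κ * (A : ℝ) ^ 3 := by ring
      _ ≤ κ * (A : ℝ) ^ 5 :=
          mul_le_mul_of_nonneg_left (pow_le_pow_right₀ hAr (by norm_num)) hκ.le


theorem abs_ediv_le (a : ℤ) (c : ℕ) : |a / (c : ℤ)| ≤ |a| := by
  rw [← Int.natCast_natAbs, ← Int.natCast_natAbs]
  exact_mod_cast Int.natAbs_ediv_le_natAbs a c

/-- the size of the values -/
theorem vbd {r : ℕ} (F : Fin 2 → Mon r → ℤ) (c A B C : ℕ) (L : Fin 2 → Fin (r + 1) → ℤ)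
    (x : Fin r → ℤ) (hc : c ≤ B) (hC : ∀ i, ∑ p, |F i p| ≤ C)
    (hL : L ∈ bL r A) (hx : x ∈ vb r B) (i : Fin 2) :
    |tt F c i x + ∑ j, L i j * cv (c : ℤ) x j| ≤ C * B ^ 2 + (r + 1) * (A * B) := by
  have hxB : ∀ j, |x j| ≤ (B : ℤ) := by
    intro j
    rw [vb, Fintype.mem_piFinset] at hx
    exact abs_le.mpr (Finset.mem_Icc.mp (hx j))
  have hLA : ∀ j, |L i j| ≤ (A : ℤ) := by
    intro j
    rw [bL, Fintype.mem_piFinset] at hL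
    have := hL i
    rw [Fintype.mem_piFinset] at this
    exact abs_le.mpr (Finset.mem_Icc.mp (this j))
  have h1 : |tt F c i x| ≤ C * (B : ℤ) ^ 2 := by
    unfold tt
    refine (abs_ediv_le _ _).trans ?_
    unfold qf
    refine (Finset.abs_sum_le_sum_abs _ _).trans ?_
    calc ∑ p : Mon r, |F i p * (x p.1.1 * x p.1.2)| ≤ ∑ p : Mon r, |F i p| * (B : ℤ) ^ 2 := by
          refine Finset.sum_le_sum fun p _ => ?_
          rw [abs_mul, abs_mul]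
          refine mul_le_mul_of_nonneg_left ?_ (abs_nonneg _)
          rw [sq]
          exact mul_le_mul (hxB _) (hxB _) (abs_nonneg _) (by positivity)
      _ = (∑ p : Mon r, |F i p|) * (B : ℤ) ^ 2 := (Finset.sum_mul _ _ _).symm
      _ ≤ _ := mul_le_mul_of_nonneg_right (hC i) (by positivity)
  have h2 : |∑ j, L i j * cv (c : ℤ) x j| ≤ (r + 1) * (A * B) := by
    refine (Finset.abs_sum_le_sum_abs _ _).trans ?_
    calc ∑ j : Fin (r + 1), |L i j * cv (c : ℤ) x j| ≤ ∑ _j : Fin (r + 1), (A : ℤ) * B := by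
          refine Finset.sum_le_sum fun j _ => ?_
          rw [abs_mul]
          refine mul_le_mul (hLA j) ?_ (abs_nonneg _) (by positivity)
          refine Fin.cases ?_ (fun k => ?_) j
          · change |(c : ℤ)| ≤ B
            rw [Nat.abs_cast]
            exact_mod_cast hc
          · exact hxB k
      _ = _ := by
        rw [Finset.sum_const, Finset.card_univ, Fintype.card_fin, nsmul_eq_mul]
        push_cast
        ring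
  exact (abs_add_le _ _).trans (add_le_add h1 h2)

open Classical in
/-- the statement for a fixed `c` -/
theorem one (hVRL : T_VRL) (hTRL : T_TRL) (hSEL : T_SEL) (hLOL : T_LOL) (hGGE : T_GGE)
    (r : ℕ) (F : Fin 2 → Mon r → ℤ) (c : ℕ) (η ε : ℝ) (hr : 5 ≤ r) (hc : 1 ≤ c) (hη : 0 < η)
    (hε : 0 < ε) :
    ∃ w K : ℕ, ∀ W : ℕ, 1 ≤ W → (∀ g, 1 ≤ g → g ≤ w → g ∣ W) → ∃ A₀ : ℕ, ∀ A : ℕ, A₀ ≤ A →
    (((bL r A).filter fun L =>
      η * ((c * W : ℕ) : ℝ) ^ r / (W : ℝ) ^ 2 ≤ ((UL F c (c * W) L).card : ℝ) ∧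
      ¬ SZF F K A L).card : ℝ) ≤ ε * (2 * (A : ℝ) + 1) ^ (2 * (r + 1)) := by
  obtain ⟨C, hC, hS⟩ := hSEL r c hr hc
  obtain ⟨c₃, hc₃, hL⟩ := hLOL r F c η (by omega) hc hη
  obtain ⟨κ, hκ⟩ : ∃ κ : ℝ, κ = (4 / 10) ^ (2 * (r + 1)) * (c₃ / 100) ^ 2 * ε / (5 * C) :=
    ⟨_, rfl⟩
  have hκ0 : 0 < κ := by
    rw [hκ]
    positivity
  obtain ⟨δ, hδd⟩ : ∃ δ : ℝ, δ = min 1 (κ / 2) := ⟨_, rfl⟩
  have hδ0 : 0 < δ := by
    rw [hδd]
    exact lt_min one_pos (by positivity)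
  have hδ1 : δ ≤ 1 := by
    rw [hδd]
    exact min_le_left _ _
  have hδ2 : 2 * δ ≤ κ := by
    have : δ ≤ κ / 2 := by
      rw [hδd]
      exact min_le_right _ _
    linarith
  obtain ⟨K', hL'⟩ := hL (δ / 2) (by positivity) (by linarith)
  obtain ⟨w₁, hw₁⟩ := exists_nat_ge (1 / κ)
  obtain ⟨w, hwd⟩ : ∃ w : ℕ, w = max 1 w₁ := ⟨_, rfl⟩
  have hw1 : 1 ≤ w := by
    rw [hwd]
    exact le_max_left _ _
  have hwk : 1 / (w : ℝ) ≤ κ := by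
    have h1 : (w₁ : ℝ) ≤ w := by
      rw [hwd]
      exact_mod_cast le_max_right _ _
    have h2 : 1 / κ ≤ w := hw₁.trans h1
    have hw0 : (0 : ℝ) < w := by exact_mod_cast hw1
    rw [div_le_iff₀ hw0]
    rw [div_le_iff₀ hκ0] at h2
    linarith
  obtain ⟨K₁, hK₁⟩ := exists_nat_ge ((K' : ℝ) ^ 2 / κ)
  obtain ⟨K₀, hK₀d⟩ : ∃ K₀ : ℕ, K₀ = max 1 K₁ := ⟨_, rfl⟩
  have hK₀1 : 1 ≤ K₀ := by
    rw [hK₀d]
    exact le_max_left _ _
  have hK₀k : (K' : ℝ) ^ 2 / κ ≤ K₀ := by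
    have h1 : (K₁ : ℝ) ≤ K₀ := by
      rw [hK₀d]
      exact_mod_cast le_max_right _ _
    exact hK₁.trans h1
  have hK₀r : (1 : ℝ) ≤ K₀ := by exact_mod_cast hK₀1
  refine ⟨w, max c (2 ^ (r - 2) * K₀), fun W hW hWg => ?_⟩
  obtain ⟨B₀, hB₀⟩ := hL' W hW
  obtain ⟨A₁, hA₁⟩ := uns r c K₀ κ hr hκ0
  obtain ⟨CF, hCF⟩ : ∃ CF : ℕ, ∀ i, ∑ p, |F i p| ≤ (CF : ℤ) := by
    refine ⟨∑ i, ∑ p, (F i p).natAbs, fun i => ?_⟩
    push_cast
    exact Finset.single_le_sum (f := fun i => ∑ p, |F i p|)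
      (fun i _ => Finset.sum_nonneg fun p _ => abs_nonneg _) (Finset.mem_univ i)
  obtain ⟨w₂, hw₂⟩ := exists_nat_ge ((2 * (W : ℝ) + 2) / δ)
  obtain ⟨B₁, hB₁⟩ : ∃ B₁ : ℕ, B₁ = B₀ + c + w₁ + 1 := ⟨_, rfl⟩
  obtain ⟨k, hk⟩ : ∃ k : ℕ, k = r - 2 := ⟨_, rfl⟩
  refine ⟨2 + A₁ + w₂ + (B₁ + 1) ^ 3 * (2 ^ k * K₀) + B₁ ^ k, fun A hA => ?_⟩
  have hA2 : 2 ≤ A := by omega
  have hAA1 : A₁ ≤ A := by omega
  have hAw2 : w₂ ≤ A := by omega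
  have hAB1 : (B₁ + 1) ^ 3 * (2 ^ k * K₀) ≤ A := by omega
  have hAB2 : B₁ ^ k ≤ A := by omega
  have hA1 : 1 ≤ A := by omega
  have hAr1 : (1 : ℝ) ≤ A := by exact_mod_cast hA1
  have hAr : (0 : ℝ) < A := by linarith
  obtain ⟨y, hy⟩ : ∃ y : ℝ, y = K₀ * (A : ℝ) ^ 2 := ⟨_, rfl⟩
  have hy2 : 2 ≤ y := by
    rw [hy]
    have h1 : (2 : ℝ) ≤ A := by exact_mod_cast hA2
    nlinarith
  obtain ⟨B, hB2, hBl, hBu⟩ := Pool.Agent.H34.HFQ.Mn1.size k y (by omega) hy2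
  rw [hy] at hBl hBu
  have hBB1 : B₁ ≤ B := blg k B₁ K₀ A B (by omega) hK₀1 hA1 hAB2 hBl
  have hBA1 : (B₁ + 1) * B ≤ A := ble k (B₁ + 1) K₀ A B (by omega) (by omega) hAB1 hBu
  have hBA : B ≤ A := le_trans (Nat.le_mul_of_pos_left _ (by omega)) hBA1
  have hBB0 : B₀ ≤ B := by omega
  have hB0A : B₀ * B ≤ A := le_trans (Nat.mul_le_mul_right _ (by omega)) hBA1
  have hcB : c ≤ B := by omega
  have hwB : w₁ ≤ B := by omega
  have hBr1 : (1 : ℝ) ≤ B := by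
    have : 1 ≤ B := by omega
    exact_mod_cast this
  have hBr : (0 : ℝ) < B := by linarith
  have hBκ : 1 ≤ κ * B := by
    have h1 : 1 / κ ≤ B := hw₁.trans (by exact_mod_cast hwB)
    rw [div_le_iff₀ hκ0] at h1
    linarith
  -- V
  obtain ⟨V, hV⟩ : ∃ V : ℝ, V = (B : ℝ) ^ (r - 2) / (A : ℝ) ^ 2 := ⟨_, rfl⟩
  have hV1 : (K₀ : ℝ) ≤ V := by
    rw [hV, le_div_iff₀ (by positivity), ← hk]
    exact hBl
  have hVr1 : 1 ≤ V := hK₀r.trans hV1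
  have hV0 : 0 < V := by linarith
  have hVk : (K' : ℝ) ^ 2 ≤ κ * V := by
    have h1 : (K' : ℝ) ^ 2 / κ ≤ V := hK₀k.trans hV1
    rw [div_le_iff₀ hκ0] at h1
    linarith
  -- D
  obtain ⟨D, hD⟩ : ∃ D : ℕ, D = 6 * c * B ^ 2 / A + 1 := ⟨_, rfl⟩
  have hD1 : 1 ≤ D := by
    rw [hD]
    exact Nat.le_add_left 1 _
  have hDA : 6 * c * B ^ 2 ≤ D * A := by
    rw [hD]
    have := Nat.lt_div_mul_add (a := 6 * c * B ^ 2) (b := A) (by omega)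
    nlinarith
  have hDu : (D : ℝ) ≤ 6 * c * (B : ℝ) ^ 2 / A + 1 := by
    rw [hD]
    push_cast
    have h1 : (((6 * c * B ^ 2 / A : ℕ)) : ℝ) ≤ ((6 * c * B ^ 2 : ℕ) : ℝ) / A := Nat.cast_div_le
    push_cast at h1
    linarith
  have hDb : (B : ℝ) ^ 4 * (D : ℝ) ^ (2 * r - 4) ≤ κ * (A : ℝ) ^ 5 := by
    refine le_trans ?_ (hA₁ A B hAA1 hA1 (by omega) ?_ ?_)
    · exact mul_le_mul_of_nonneg_left (pow_le_pow_left₀ (Nat.cast_nonneg _) hDu _) (by positivity)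
    · rw [← hk]
      refine le_trans ?_ hBl
      exact le_mul_of_one_le_left (by positivity) hK₀r
    · rw [← hk]
      exact hBu
  -- T
  obtain ⟨x, hx⟩ : ∃ x : ℝ, x = 2 * δ * A * B := ⟨_, rfl⟩
  have hWr : (1 : ℝ) ≤ W := by exact_mod_cast hW
  have hx1 : 2 * (W : ℝ) + 2 ≤ x / 2 := by
    rw [div_le_iff₀ hδ0] at hw₂
    have h1 : (w₂ : ℝ) ≤ A := by exact_mod_cast hAw2
    have h3 : 2 * (W : ℝ) + 2 ≤ A * δ := hw₂.trans (mul_le_mul_of_nonneg_right h1 hδ0.le)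
    have h4 : A * δ ≤ A * δ * B := le_mul_of_one_le_right (by positivity) hBr1
    rw [hx]
    linarith
  have hx0 : 0 ≤ x := by linarith
  obtain ⟨T, hT⟩ : ∃ T : ℕ, T = ⌊x⌋₊ := ⟨_, rfl⟩
  have hTu : (T : ℝ) ≤ x := by
    rw [hT]
    exact Nat.floor_le hx0
  have hTl : x / 2 ≤ T := by
    have h1 := Nat.lt_floor_add_one x
    rw [← hT] at h1
    linarith
  have hT0 : (0 : ℝ) < T := by linarith
  have hTW : 2 * W ≤ T := by
    have h1 : (2 : ℝ) * W ≤ T := by linarith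
    exact_mod_cast h1
  -- J, Q
  obtain ⟨M, hM⟩ : ∃ M : ℕ, M = 2 * B ^ 2 + CF * B ^ 2 + (r + 1) * B + 2 := ⟨_, rfl⟩
  obtain ⟨J, hJ⟩ : ∃ J : ℕ, J = T * W * M := ⟨_, rfl⟩
  have hTpos : 1 ≤ T := by exact_mod_cast (Nat.cast_pos.mp hT0)
  have hJN : M ≤ J := by
    rw [hJ]
    exact Nat.le_mul_of_pos_left _ (Nat.mul_pos hTpos hW)
  have hJ1 : 1 ≤ J := le_trans (by rw [hM]; omega) hJN
  have hJB : 2 * B ^ 2 ≤ J := le_trans (by rw [hM]; omega) hJN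
  have hJ2 : 2 ≤ J := le_trans (by rw [hM]; omega) hJN
  obtain ⟨Q, hQ⟩ : ∃ Q : ℕ, Q = 2 * A * J := ⟨_, rfl⟩
  have hQ0 : Q ≠ 0 := by
    rw [hQ]
    positivity
  have iQ : NeZero Q := ⟨hQ0⟩
  have hWQ : W ∣ Q := by
    rw [hQ, hJ]
    exact Dvd.intro (2 * A * T * M) (by ring)
  have hTQ : T ∣ Q := by
    rw [hQ, hJ]
    exact Dvd.intro (2 * A * W * M) (by ring)
  have h2JQ : 2 * J ≤ Q := by
    rw [hQ]
    exact Nat.mul_le_mul_right _ (by omega)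
  have hQA : 2 * A < Q := by
    rw [hQ]
    calc 2 * A = 2 * A * 1 := (mul_one _).symm
      _ < 2 * A * J := Nat.mul_lt_mul_of_pos_left (by omega) (by omega)
  have hQB : CF * B ^ 2 + (r + 1) * (A * B) < Q := by
    rw [hQ]
    have h1 : CF * B ^ 2 + (r + 1) * B < J := lt_of_lt_of_le (by rw [hM]; omega) hJN
    calc CF * B ^ 2 + (r + 1) * (A * B) ≤ A * (CF * B ^ 2 + (r + 1) * B) := by
          have : CF * B ^ 2 ≤ A * (CF * B ^ 2) := Nat.le_mul_of_pos_left _ (by omega)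
          calc CF * B ^ 2 + (r + 1) * (A * B) ≤ A * (CF * B ^ 2) + (r + 1) * (A * B) := by omega
            _ = _ := by ring
      _ < A * J := Nat.mul_lt_mul_of_pos_left h1 (by omega)
      _ ≤ 2 * A * J := by
        rw [mul_assoc]
        omega
  have hQJ : (Q : ℝ) / J = 2 * A := by
    rw [hQ]
    push_cast
    have : (J : ℝ) ≠ 0 := by
      have : J ≠ 0 := by omega
      exact_mod_cast this
    field_simp
  -- the exceptional set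
  obtain ⟨E, hE⟩ : ∃ E : Finset (Fin 2 → Fin (r + 1) → ℤ), E = (bL r A).filter fun L =>
      η * ((c * W : ℕ) : ℝ) ^ r / (W : ℝ) ^ 2 ≤ ((UL F c (c * W) L).card : ℝ) ∧
      ¬ SZF F (max c (2 ^ (r - 2) * K₀)) A L := ⟨_, rfl⟩
  rw [← hE]
  obtain ⟨M₀, hM₀⟩ : ∃ M₀ : ℝ, M₀ = c₃ * (δ / 2) ^ 2 * (B : ℝ) ^ r / (W : ℝ) ^ 2 := ⟨_, rfl⟩
  have hM₀0 : 0 ≤ M₀ := by
    rw [hM₀]
    positivity
  have hEb : ∀ L ∈ E, L ∈ bL r A := fun L hLE => by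
    rw [hE, Finset.mem_filter] at hLE
    exact hLE.1
  have h1 := hTRL r (r + 1) A J Q W T (PT F c K' B) (fun x => cv (c : ℤ) x) (tt F c) E M₀ hA1 hJ1
    hQ hW hWQ hTQ hTW hQA (by
      intro L hLE i j
      have hLb := hEb L hLE
      rw [bL, Fintype.mem_piFinset] at hLb
      have := hLb i
      rw [Fintype.mem_piFinset] at this
      exact abs_le.mpr (Finset.mem_Icc.mp (this j))) (by
      intro L hLE z hz i
      rw [PT, Finset.mem_filter] at hz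
      refine lt_of_le_of_lt (vbd F c A B CF L z hcB hCF (hEb L hLE) hz.1 i) ?_
      exact_mod_cast hQB) hM₀0 (by
      intro L hLE
      rw [hE, Finset.mem_filter] at hLE
      obtain ⟨hLb, hf1, hf2⟩ := hLE
      constructor
      · intro z hzS
        by_contra hno
        push Not at hno
        apply hf2
        rw [PT, Finset.mem_filter] at hzS
        obtain ⟨hzB, -, -, hzc⟩ := hzS
        refine ⟨c, z, hc, le_max_left _ _, fun i => ?_, fun j => ?_⟩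
        · have h5 := (hGGE ℤ r (F i) (L i) (c : ℤ) z).1
          unfold gg
          rw [h5]
          have h6 := hno i
          unfold tt at h6
          have h7 : qf (F i) z = c * (qf (F i) z / c) := (Int.mul_ediv_cancel' (hzc i)).symm
          rw [h7]
          linear_combination (c : ℤ) * h6
        · have h9 : |z j| ≤ (B : ℤ) := by
            rw [vb, Fintype.mem_piFinset] at hzB
            exact abs_le.mpr (Finset.mem_Icc.mp (hzB j))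
          have h10 : (B : ℤ) ^ (r - 2) ≤ ((2 ^ (r - 2) * K₀ : ℕ) : ℤ) * (A : ℤ) ^ 2 := by
            have h11 : (B : ℝ) ^ (r - 2) ≤ 2 ^ (r - 2) * K₀ * (A : ℝ) ^ 2 := by
              rw [← hk]
              linarith
            exact_mod_cast h11
          calc |z j| ^ (r - 2) ≤ (B : ℤ) ^ (r - 2) := pow_le_pow_left₀ (abs_nonneg _) h9 _
            _ ≤ _ := h10
            _ ≤ _ := by
              refine mul_le_mul_of_nonneg_right ?_ (by positivity)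
              exact_mod_cast le_max_right _ _
      · have h2 := hB₀ B A L hBB0 hB0A hLb hf1
        rw [hM₀]
        refine h2.trans (Nat.cast_le.mpr (Finset.card_le_card ?_))
        intro z hzz
        rw [Finset.mem_filter] at hzz ⊢
        refine ⟨hzz.1, fun i => ⟨(hzz.2 i).1, ?_⟩⟩
        have h3 := (hzz.2 i).2
        have h4 : 2 * |((vi F c L i z : ℤ) : ℝ)| ≤ T := by
          refine le_trans ?_ hTl
          rw [hx]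
          linarith
        have h5 : 2 * |vi F c L i z| ≤ (T : ℤ) := by exact_mod_cast h4
        exact h5)
  have h2 := hVRL r (r + 1) Q J W T (PT F c K' B) (fun x => cv (c : ℤ) x) (tt F c) hJ1 h2JQ hW
    hWQ hTQ hTW
  have h3 := hS F K' B A J Q W T w D hA1 hBA hcB hJB hQ hW hWQ hTQ hTW hw1 hWg hD1 hDA
  rw [hQJ] at h2
  rw [← hV] at h3
  have h4 := (h1.trans h2).trans (mul_le_mul_of_nonneg_left h3 (by positivity))
  have h5 : c₃ / 16 * V ≤ ((W : ℝ) / T) ^ 2 * M₀ := by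
    have e1 : ((W : ℝ) / T) ^ 2 * M₀ = c₃ * (δ / 2) ^ 2 * (B : ℝ) ^ r / (T : ℝ) ^ 2 := by
      rw [hM₀]
      have : (W : ℝ) ≠ 0 := by positivity
      field_simp
    rw [e1, le_div_iff₀ (by positivity)]
    have e2 : c₃ / 16 * V * x ^ 2 = c₃ * (δ / 2) ^ 2 * (B : ℝ) ^ r := by
      obtain ⟨r', rfl⟩ : ∃ r', r = r' + 2 := ⟨r - 2, by omega⟩
      rw [Nat.add_sub_cancel] at hV
      rw [hV, hx]
      have : (A : ℝ) ≠ 0 := hAr.ne'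
      field_simp
      ring
    rw [← e2]
    exact mul_le_mul_of_nonneg_left (pow_le_pow_left₀ hT0.le hTu 2) (by positivity)
  have h6 : (c₃ / 100 * V) ^ 2 ≤ (((W : ℝ) / T) ^ 2 * (4 / 10) ^ 2 * M₀) ^ 2 := by
    refine pow_le_pow_left₀ (by positivity) ?_ 2
    calc c₃ / 100 * V = (4 / 10) ^ 2 * (c₃ / 16 * V) := by ring
      _ ≤ (4 / 10) ^ 2 * (((W : ℝ) / T) ^ 2 * M₀) := mul_le_mul_of_nonneg_left h5 (by norm_num)
      _ = ((W : ℝ) / T) ^ 2 * (4 / 10) ^ 2 * M₀ := by ring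
  have h7 : (E.card : ℝ) * ((4 / 10) ^ (2 * (r + 1)) * (c₃ / 100 * V) ^ 2) ≤
      (2 * (A : ℝ)) ^ (2 * (r + 1)) * (C * (V ^ 2 * (1 / w + T / (A * B)) +
        (B : ℝ) ^ 4 * (D : ℝ) ^ (2 * r - 4) / (A : ℝ) ^ 5 + (B : ℝ) ^ r / (A : ℝ) ^ 4 +
        (K' : ℝ) ^ 2 * (B : ℝ) ^ (r - 2) / (A : ℝ) ^ 2)) := by
    refine le_trans (mul_le_mul_of_nonneg_left (mul_le_mul_of_nonneg_left h6 (by positivity))
      (Nat.cast_nonneg _)) h4
  have h8 : V ^ 2 * (1 / w + T / (A * B)) +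
        (B : ℝ) ^ 4 * (D : ℝ) ^ (2 * r - 4) / (A : ℝ) ^ 5 + (B : ℝ) ^ r / (A : ℝ) ^ 4 +
        (K' : ℝ) ^ 2 * (B : ℝ) ^ (r - 2) / (A : ℝ) ^ 2 ≤ 5 * κ * V ^ 2 := by
    have a1 : (T : ℝ) / (A * B) ≤ κ := by
      rw [div_le_iff₀ (by positivity)]
      calc (T : ℝ) ≤ 2 * δ * A * B := by rw [← hx]; exact hTu
        _ = 2 * δ * (A * B) := by ring
        _ ≤ κ * (A * B) := mul_le_mul_of_nonneg_right hδ2 (by positivity)
    have a2 : V ^ 2 * (1 / w + T / (A * B)) ≤ V ^ 2 * (κ + κ) :=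
      mul_le_mul_of_nonneg_left (add_le_add hwk a1) (by positivity)
    have a3 : (B : ℝ) ^ 4 * (D : ℝ) ^ (2 * r - 4) / (A : ℝ) ^ 5 ≤ κ * V ^ 2 := by
      calc (B : ℝ) ^ 4 * (D : ℝ) ^ (2 * r - 4) / (A : ℝ) ^ 5 ≤ κ := by
            rw [div_le_iff₀ (by positivity)]
            exact hDb
        _ ≤ κ * V ^ 2 := le_mul_of_one_le_right hκ0.le (one_le_pow₀ hVr1)
    have a4 : (B : ℝ) ^ r / (A : ℝ) ^ 4 ≤ κ * V ^ 2 := by
      obtain ⟨r', rfl⟩ : ∃ r', r = r' + 5 := ⟨r - 5, by omega⟩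
      have e5 : r' + 5 - 2 = r' + 3 := rfl
      rw [e5] at hV
      rw [hV]
      have e6 : κ * ((B : ℝ) ^ (r' + 3) / (A : ℝ) ^ 2) ^ 2 =
          (κ * B) * ((B : ℝ) ^ (2 * r' + 5)) / (A : ℝ) ^ 4 := by
        field_simp
        ring
      rw [e6]
      refine div_le_div_of_nonneg_right ?_ (by positivity)
      calc (B : ℝ) ^ (r' + 5) ≤ (B : ℝ) ^ (2 * r' + 5) := pow_le_pow_right₀ hBr1 (by omega)
        _ ≤ κ * B * (B : ℝ) ^ (2 * r' + 5) := le_mul_of_one_le_left (by positivity) hBκ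
    have a5 : (K' : ℝ) ^ 2 * (B : ℝ) ^ (r - 2) / (A : ℝ) ^ 2 ≤ κ * V ^ 2 := by
      calc (K' : ℝ) ^ 2 * (B : ℝ) ^ (r - 2) / (A : ℝ) ^ 2 = (K' : ℝ) ^ 2 * V := by
            rw [hV]
            ring
        _ ≤ κ * V * V := mul_le_mul_of_nonneg_right hVk hV0.le
        _ = κ * V ^ 2 := by ring
    calc _ ≤ V ^ 2 * (κ + κ) + κ * V ^ 2 + κ * V ^ 2 + κ * V ^ 2 :=
          add_le_add (add_le_add (add_le_add a2 a3) a4) a5
      _ = 5 * κ * V ^ 2 := by ring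
  have h11 : C * (5 * κ) = (4 / 10) ^ (2 * (r + 1)) * (c₃ / 100) ^ 2 * ε := by
    rw [hκ]
    field_simp
  have h12 : (E.card : ℝ) * ((4 / 10) ^ (2 * (r + 1)) * (c₃ / 100 * V) ^ 2) ≤
      ε * (2 * (A : ℝ)) ^ (2 * (r + 1)) * ((4 / 10) ^ (2 * (r + 1)) * (c₃ / 100 * V) ^ 2) := by
    refine h7.trans ((mul_le_mul_of_nonneg_left (mul_le_mul_of_nonneg_left h8 hC.le)
      (by positivity)).trans (le_of_eq ?_))
    calc (2 * (A : ℝ)) ^ (2 * (r + 1)) * (C * (5 * κ * V ^ 2)) =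
          (2 * (A : ℝ)) ^ (2 * (r + 1)) * ((C * (5 * κ)) * V ^ 2) := by ring
      _ = (2 * (A : ℝ)) ^ (2 * (r + 1)) *
          (((4 / 10) ^ (2 * (r + 1)) * (c₃ / 100) ^ 2 * ε) * V ^ 2) := by rw [h11]
      _ = _ := by ring
  have h13 : (E.card : ℝ) ≤ ε * (2 * (A : ℝ)) ^ (2 * (r + 1)) :=
    le_of_mul_le_mul_right h12 (by positivity)
  refine h13.trans (mul_le_mul_of_nonneg_left ?_ hε.le)
  exact pow_le_pow_left₀ (by positivity) (by linarith) _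

/-- monotonicity -/
theorem szm {r : ℕ} (F : Fin 2 → Mon r → ℤ) (K K' A : ℕ) (L : Fin 2 → Fin (r + 1) → ℤ)
    (h : K ≤ K') (hS : SZF F K A L) : SZF F K' A L := by
  obtain ⟨c, x, h1, h2, h3, h4⟩ := hS
  refine ⟨c, x, h1, h2.trans h, h3, fun j => (h4 j).trans ?_⟩
  refine mul_le_mul_of_nonneg_right ?_ (by positivity)
  exact_mod_cast h

end Mnl

open Mnl

open Classical in
/-- MNL -/
theorem pf_MNL (hVRL : T_VRL) (hTRL : T_TRL) (hSEL : T_SEL) (hLOL : T_LOL) (hULB : T_ULB)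
    (hGGE : T_GGE) : T_MNL := by
  intro r F t w₀ hr ε hε
  obtain ⟨η, hη, hU⟩ := hULB r F t w₀ (by omega)
  obtain ⟨m0, hm0⟩ : ∃ m0 : ℕ, m0 = (w₀.factorial) ^ t := ⟨_, rfl⟩
  rw [← hm0] at hU
  have hone : ∀ c : ℕ, ∃ w K : ℕ, 1 ≤ c → ∀ W : ℕ, 1 ≤ W → (∀ g, 1 ≤ g → g ≤ w → g ∣ W) →
      ∃ A₀ : ℕ, ∀ A : ℕ, A₀ ≤ A → (((bL r A).filter fun L =>
      η * ((c * W : ℕ) : ℝ) ^ r / (W : ℝ) ^ 2 ≤ ((UL F c (c * W) L).card : ℝ) ∧
      ¬ SZF F K A L).card : ℝ) ≤ ε / (m0 + 1) * (2 * (A : ℝ) + 1) ^ (2 * (r + 1)) := by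
    intro c
    by_cases hc : 1 ≤ c
    · obtain ⟨w, K, h⟩ := one hVRL hTRL hSEL hLOL hGGE r F c η (ε / (m0 + 1)) hr hc hη
        (by positivity)
      exact ⟨w, K, fun _ => h⟩
    · exact ⟨0, 0, fun h => absurd h hc⟩
  choose wf Kf hf using hone
  obtain ⟨w, hwd⟩ : ∃ w : ℕ, w = w₀ + ∑ c ∈ range (m0 + 1), wf c := ⟨_, rfl⟩
  have hww : w₀ ≤ w := by omega
  have hwc : ∀ c ∈ range (m0 + 1), wf c ≤ w := fun c hc => by
    have := Finset.single_le_sum (f := wf) (fun _ _ => Nat.zero_le _) hc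
    omega
  obtain ⟨K, hKd⟩ : ∃ K : ℕ, K = ∑ c ∈ range (m0 + 1), Kf c := ⟨_, rfl⟩
  have hKc : ∀ c ∈ range (m0 + 1), Kf c ≤ K := fun c hc => by
    rw [hKd]
    exact Finset.single_le_sum (f := Kf) (fun _ _ => Nat.zero_le _) hc
  -- the modulus
  obtain ⟨W, hWd⟩ : ∃ W : ℕ, W = (w.factorial) ^ (2 * t + 1) := ⟨_, rfl⟩
  have hW0 : W ≠ 0 := by
    rw [hWd]
    exact pow_ne_zero _ (Nat.factorial_ne_zero w)
  have hWg : ∀ g, 1 ≤ g → g ≤ w → g ∣ W := by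
    intro g hg hgw
    rw [hWd]
    exact (Nat.dvd_factorial hg hgw).trans (dvd_pow_self _ (by omega))
  have hWp : ∀ p : ℕ, p.Prime → p ≤ w → p ^ (2 * t) ∣ W := by
    intro p hp hpw
    rw [hWd]
    exact (pow_dvd_pow_of_dvd (Nat.dvd_factorial hp.pos hpw) _).trans
      (pow_dvd_pow _ (by omega))
  obtain ⟨W₀, W₁, hW, hcop, hWa, hWb⟩ := Pool.Agent.H32.RQ.Mn.split w₀ W hW0
  have hW₀0 : W₀ ≠ 0 := fun h => hW0 (by rw [hW, h, zero_mul])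
  have hW₁0 : W₁ ≠ 0 := fun h => hW0 (by rw [hW, h, mul_zero])
  have i0 : NeZero W₀ := ⟨hW₀0⟩
  have i1 : NeZero W₁ := ⟨hW₁0⟩
  have hWc : ∀ p : ℕ, p.Prime → p ≤ w₀ → p ^ (2 * t) ∣ W₀ := by
    intro p hp hpw
    have h1 := hWp p hp (hpw.trans hww)
    rw [hW] at h1
    have h2 : Nat.Coprime (p ^ (2 * t)) W₁ :=
      Nat.Coprime.pow_left _ ((Nat.Prime.coprime_iff_not_dvd hp).mpr fun h =>
        absurd (hWb p hp h) (not_lt.mpr hpw))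
    exact h2.dvd_of_dvd_mul_right h1
  have hWpos : 1 ≤ W := Nat.one_le_iff_ne_zero.mpr hW0
  have hAf : ∀ c : ℕ, ∃ A₀ : ℕ, c ∈ Finset.Icc 1 m0 → ∀ A : ℕ, A₀ ≤ A →
      (((bL r A).filter fun L =>
      η * ((c * W : ℕ) : ℝ) ^ r / (W : ℝ) ^ 2 ≤ ((UL F c (c * W) L).card : ℝ) ∧
      ¬ SZF F (Kf c) A L).card : ℝ) ≤ ε / (m0 + 1) * (2 * (A : ℝ) + 1) ^ (2 * (r + 1)) := by
    intro c
    by_cases hc : c ∈ Finset.Icc 1 m0
    · rw [Finset.mem_Icc] at hc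
      obtain ⟨A₀, h⟩ := hf c hc.1 W hWpos fun g hg hgw => hWg g hg
        (hgw.trans (hwc c (Finset.mem_range.mpr (by omega))))
      exact ⟨A₀, fun _ => h⟩
    · exact ⟨0, fun h => absurd h hc⟩
  choose Af hAf using hAf
  refine ⟨W₁, K, ∑ c ∈ Finset.Icc 1 m0, Af c, i1, hWb, fun A hA => ?_⟩
  have hsub : ((bL r A).filter fun L => (∀ p : ℕ, p.Prime → p ≤ w₀ → RL F t p L) ∧
      W₁ ^ (r - 2) ≤ 2 * aL F W₁ (cL (ZMod W₁) L) ∧ ¬ SZF F K A L) ⊆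
      (Finset.Icc 1 m0).biUnion fun c => (bL r A).filter fun L =>
      η * ((c * W : ℕ) : ℝ) ^ r / (W : ℝ) ^ 2 ≤ ((UL F c (c * W) L).card : ℝ) ∧
      ¬ SZF F (Kf c) A L := by
    intro L hL
    rw [Finset.mem_filter] at hL
    obtain ⟨hLb, hL1, hL2, hL3⟩ := hL
    obtain ⟨m, hm1, hm2, hm3⟩ := hU W₀ W₁ L hWa hWc hWb hL1 hL2
    rw [← hW] at hm3
    rw [Finset.mem_biUnion]
    refine ⟨m, Finset.mem_Icc.mpr ⟨hm1, hm2⟩, ?_⟩
    rw [Finset.mem_filter]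
    refine ⟨hLb, hm3, fun h => hL3 ?_⟩
    exact szm F (Kf m) K A L (hKc m (Finset.mem_range.mpr (by omega))) h
  have hcard : (((bL r A).filter fun L => (∀ p : ℕ, p.Prime → p ≤ w₀ → RL F t p L) ∧
      W₁ ^ (r - 2) ≤ 2 * aL F W₁ (cL (ZMod W₁) L) ∧ ¬ SZF F K A L).card : ℝ) ≤
      ∑ _c ∈ Finset.Icc 1 m0, ε / (m0 + 1) * (2 * (A : ℝ) + 1) ^ (2 * (r + 1)) := by
    refine (Nat.cast_le.mpr ((Finset.card_le_card hsub).trans Finset.card_biUnion_le)).trans ?_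
    rw [Nat.cast_sum]
    refine Finset.sum_le_sum fun c hc => ?_
    refine hAf c hc A (le_trans ?_ hA)
    exact Finset.single_le_sum (f := Af) (fun _ _ => Nat.zero_le _) hc
  refine hcard.trans ?_
  rw [Finset.sum_const, Nat.card_Icc, nsmul_eq_mul, ← mul_assoc]
  refine mul_le_mul_of_nonneg_right ?_ (by positivity)
  rw [Nat.add_sub_cancel, mul_div_assoc', div_le_iff₀ (by positivity)]
  nlinarith

end Pool.Agent.H34.HFS
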